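import Pool.Agent.Q106.WG.LevG
import Pool.Agent.Q120.GM.Exists

/-!
# MP_efcac8_nt: the number `G` of random sets which satisfy all congruences of the `k`-th powers

A level function `Q` (`Levels Q`): `Q m ∣ Q n` for `m ≤ n` and `Q n = n ^ o(1)`. The random set `A` contains each `n`
independently with probability `lprob k Q n = min 1 (w n^(1/k-1) / k)`, where `w = pw k (Q n) n` is the number of the classes
`x` modulo `Q n` with `x ^ k ≡ n`. `gnumL S` is the least `s` such that for every `m` all large integers are sums of at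
most `s` elements `≥ m` of `S`; `gamL k Q` is the least `s` such that every class modulo every `Q n` contains a sum of `s`
`k`-th powers, `gamAll k` the same for all moduli.
-/

set_option autoImplicit false

namespace Pool.Agent.Results.MP_efcac8_nt.AllCongruencesModel

open MeasureTheory Filter Pool.Agent.Q106.WG
open Pool.Agent.Q120.GM (IsModel prodMeasure trueSet)

/-- **`G = max (k + 1, Γ)` in the sieved models of growing level.** -/
theorem result :
    (∃ Q : ℕ → ℕ, Levels Q ∧ ∀ m, 1 ≤ m → ∃ n, m ∣ Q n) ∧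
    (∀ (k : ℕ) (Q : ℕ → ℕ), IsModel (prodMeasure (lprob k Q)) (lprob k Q) (trueSet (ι := ℕ))) ∧
    ∀ (k : ℕ) (Q : ℕ → ℕ), 2 ≤ k → Levels Q →
      (∀ (Ω : Type) (_ : MeasurableSpace Ω) (μ : Measure Ω) (_ : IsProbabilityMeasure μ) (A : Ω → Set ℕ),
        IsModel μ (lprob k Q) A → ∀ᵐ ω ∂μ, gnumL (A ω) = max (k + 1) (gamL k Q)) ∧
      ((∀ m, 1 ≤ m → ∃ n, m ∣ Q n) → gamL k Q = gamAll k) ∧
      ((∀ a, 2 ≤ a → k ≠ 2 ^ a) → max (k + 1) (gamL k Q) ≤ 2 * k) := by
  refine ⟨⟨_, exists_levels⟩, fun k Q => Pool.Agent.Q120.GM.isModel _ (lprob_nonneg k Q) (lprob_le_one k Q), ?_⟩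
  intro k Q hk hQ
  refine ⟨fun Ω _ μ _ A hA => lev_gnum hA hk hQ, fun h => gamL_eq_gamAll hQ h, fun h => max_le (by omega) ?_⟩
  exact Nat.sInf_le (fun N n => sumMod_two_mul hk h (hQ.pos N) n)

end Pool.Agent.Results.MP_efcac8_nt.AllCongruencesModel
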