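import Pool.Agent.Q154.War.DimE

/-!
# The Hausdorff dimension of the exceptional shifts in Waring's problem

For `n > 2 k (1 + τ)` shifted `k`-th powers `(x_i + α_i)^k` of positive integers, the set of the
shifts `α ∈ ℝ^n` for which not every large real number `N` has the expected number of
approximations `|∑ (x_i + α_i)^k - N| < c N ^ (-τ)` has Hausdorff dimension at most
`n - min 4 (n - 2 k (1 + τ)) / (k - 1 + k τ)`.  For `τ = 0` and `n ≥ 2 k + 1` it follows that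
outside a set of dimension at most `n - min 4 (n - 2 k) / (k - 1)` all large integers are integer
parts of the sums (theorem `floors`).
-/

set_option autoImplicit false

namespace Pool.Agent.Results.MP_efcac8_nt.ExceptionalShifts

open Pool.Agent.Q154.War

/-- every large real number `N` has at least `κ c N ^ (n/k - 1 - τ)` approximations by sums of `n`
shifted `k`-th powers, with an error less than `c N ^ (-τ)` -/
def Approximations (k n : ℕ) (τ κ c : ℝ) (α : Fin n → ℝ) : Prop :=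
  ∃ N₀ : ℝ, ∀ N : ℝ, N₀ ≤ N → ∃ S : Finset (Fin n → ℕ),
    κ * c * N ^ ((n : ℝ) / k - 1 - τ) ≤ (S.card : ℝ) ∧
    ∀ x ∈ S, (∀ i, 0 < x i) ∧ |∑ i, ((x i : ℝ) + α i) ^ k - N| < c * N ^ (-τ)

theorem approx_iff {k m : ℕ} {τ κ c : ℝ} {α : Fin (m + 1) → ℝ} :
    Approximations k (m + 1) τ κ c α ↔ Good k m τ κ c α := by
  unfold Approximations Good
  push_cast
  exact Iff.rfl

/-- **The dimension of the exceptional shifts.** -/
theorem result (k n : ℕ) (hk : 3 ≤ k) (hn : 2 * n ≤ 3 ^ k) (τ : ℝ) (hτ : 0 ≤ τ)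
    (hτn : 2 * k * (1 + τ) < n) : ∃ κ : ℝ, 0 < κ ∧
      dimH {α : Fin n → ℝ | ¬ ∀ c : ℝ, 0 < c → c ≤ 1 → Approximations k n τ κ c α} ≤
        ENNReal.ofReal (n - min 4 (n - 2 * k * (1 + τ)) / (k - 1 + k * τ)) := by
  have hk0 : (0 : ℝ) < k := by exact_mod_cast (by omega : 0 < k)
  have hn1 : 2 * k + 1 ≤ n := by
    have h1 : (2 * k : ℝ) < n := by
      have : 0 ≤ 2 * (k : ℝ) * τ := by positivity
      linarith
    have h2 : 2 * k < n := by exact_mod_cast h1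
    omega
  obtain ⟨m, rfl⟩ : ∃ m, n = m + 1 := ⟨n - 1, by omega⟩
  refine ⟨κ0 k m τ / 2, ?_, ?_⟩
  · have := κ0_pos (k := k) (m := m) (τ := τ) (by omega)
    positivity
  have h1 := dim_main (k := k) (m := m) (τ := τ) hk (by omega) hn hτ
    (by push_cast at hτn; exact hτn)
  simp only [approx_iff]
  refine h1.trans (le_of_eq ?_)
  unfold mu aa
  push_cast
  rfl

/-- the case `τ = 0` for integer parts -/
theorem floors (k n : ℕ) (hk : 3 ≤ k) (hn : 2 * n ≤ 3 ^ k) (hn1 : 2 * k + 1 ≤ n) :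
    dimH {α : Fin n → ℝ | ¬ ∃ N₀ : ℕ, ∀ N : ℕ, N₀ ≤ N → ∃ x : Fin n → ℕ, (∀ i, 0 < x i) ∧
      ⌊∑ i, ((x i : ℝ) + α i) ^ k⌋ = (N : ℤ)} ≤
        ENNReal.ofReal (n - min 4 ((n : ℝ) - 2 * k) / (k - 1)) := by
  obtain ⟨κ, hκ, h2⟩ := result k n hk hn 0 le_rfl (by
    rw [add_zero, mul_one]
    exact_mod_cast hn1)
  refine (dimH_mono ?_).trans (h2.trans (le_of_eq ?_))
  · intro α hα hcon
    refine hα ?_
    obtain ⟨N₀, hN₀⟩ := hcon (1 / 2) (by norm_num) (by norm_num)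
    refine ⟨⌈N₀⌉₊, fun N hN => ?_⟩
    have h1 : N₀ ≤ (N : ℝ) + 1 / 2 := by
      have h2 : N₀ ≤ ⌈N₀⌉₊ := Nat.le_ceil _
      have h3 : ((⌈N₀⌉₊ : ℕ) : ℝ) ≤ N := by exact_mod_cast hN
      linarith
    have hNN : (0 : ℝ) < (N : ℝ) + 1 / 2 := by positivity
    obtain ⟨S, hS1, hS2⟩ := hN₀ _ h1
    have h4 : 0 < (S.card : ℝ) := by
      refine lt_of_lt_of_le ?_ hS1
      have := Real.rpow_pos_of_pos hNN ((n : ℝ) / k - 1 - 0)
      positivity
    have h5 : 0 < S.card := by exact_mod_cast h4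
    obtain ⟨x, hx⟩ := Finset.card_pos.1 h5
    obtain ⟨h6, h7⟩ := hS2 x hx
    refine ⟨x, h6, ?_⟩
    rw [neg_zero, Real.rpow_zero, mul_one, abs_lt] at h7
    rw [Int.floor_eq_iff]
    push_cast
    constructor <;> linarith [h7.1, h7.2]
  · simp

end Pool.Agent.Results.MP_efcac8_nt.ExceptionalShifts
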