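import Mathlib
import Pool.Agent.Q83.WG.TD
import Pool.Agent.Q83.WG.Pr

/-!
# Waring's problem with generic coefficients: `k + 1 + ⌈log₂ (k + 1)⌉` powers of primes
-/

set_option autoImplicit false

open MeasureTheory Filter

namespace Pool.Agent.Results.MP_efcac8_nt.LogarithmicSaving

/-- At least `M` tuples of primes `p` satisfy `|a_1 p_1^(k_1) + ... + a_s p_s^(k_s) - N| ≤ r`. -/
def ManyPrimeSolutions {s : ℕ} (a k : Fin s → ℝ) (N r M : ℝ) : Prop :=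
  ∃ T : Finset (Fin s → ℕ), M ≤ (T.card : ℝ) ∧
    ∀ p ∈ T, (∀ i, (p i).Prime) ∧ |∑ i, a i * (p i : ℝ) ^ k i - N| ≤ r

/-- (1) Let `k_1, ..., k_{b+m} ≥ 1` be real, let `Q` be the sum of the last `b` of the `1/k_i` and suppose that
each of these `b` exponents satisfies `2/k_i < Q`. For almost all positive
`a_1, ..., a_{b+m}`, all `g ≥ 0` with `1 + g < 2^m (Q - 1 - g)` and all `ε > 0`, every large real `N` has
at least `N^(1/k_1 + ... + 1/k_{b+m} - 1 - g - ε)` solutions of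
`|a_1 p_1^(k_1) + ... + a_{b+m} p_{b+m}^(k_{b+m}) - N| ≤ N^(-g)` in primes. (2) If `k ≥ 1`, `2^m > k` and
`s ≥ k + 1 + m`, then for almost all positive `a_1, ..., a_s` every large integer is the integer part
of `a_1 p_1^k + ... + a_s p_s^k` for some primes `p_i`. -/
theorem result :
    (∀ (b m : ℕ) (k : Fin (b + m) → ℝ), (∀ i, 1 ≤ k i) →
      (∀ i : Fin b, 2 * (k (i.addNat m))⁻¹ < ∑ j : Fin b, (k (j.addNat m))⁻¹) →
      ∀ᵐ a : Fin (b + m) → ℝ, (∀ i, 0 < a i) →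
        ∀ g : ℝ, 0 ≤ g → 1 + g < 2 ^ m * ((∑ j : Fin b, (k (j.addNat m))⁻¹) - 1 - g) →
          ∀ ε : ℝ, 0 < ε → ∀ᶠ N : ℝ in atTop,
            ManyPrimeSolutions a k N (N ^ (-g)) (N ^ ((∑ i, (k i)⁻¹) - 1 - g - ε))) ∧
    (∀ k m s : ℕ, 1 ≤ k → k < 2 ^ m → k + 1 + m ≤ s →
      ∀ᵐ a : Fin s → ℝ, (∀ i, 0 < a i) →
        ∀ᶠ N : ℕ in atTop, ∃ p : Fin s → ℕ, (∀ i, (p i).Prime) ∧
          ⌊∑ i, a i * (p i : ℝ) ^ k⌋ = (N : ℤ)) := by
  have main : ∀ (b m : ℕ) (k : Fin (b + m) → ℝ), (∀ i, 1 ≤ k i) →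
      (∀ i : Fin b, 2 * (k (i.addNat m))⁻¹ < ∑ j : Fin b, (k (j.addNat m))⁻¹) →
      ∀ᵐ a : Fin (b + m) → ℝ, (∀ i, 0 < a i) →
        ∀ g : ℝ, 0 ≤ g → 1 + g < 2 ^ m * ((∑ j : Fin b, (k (j.addNat m))⁻¹) - 1 - g) →
          ∀ ε : ℝ, 0 < ε → ∀ᶠ N : ℝ in atTop,
            ManyPrimeSolutions a k N (N ^ (-g)) (N ^ ((∑ i, (k i)⁻¹) - 1 - g - ε)) := by
    intro b m k hk hmax
    filter_upwards [Pool.Agent.Q83.WG.coef_log_main b m (fun _ => {p : ℕ | p.Prime})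
      (fun _ => Pool.Agent.Q83.WG.dense_primes) k hk hmax] with a ha hpos g hg hg2 ε hε
    filter_upwards [ha hpos g hg hg2 ε hε] with N hN
    obtain ⟨T, h1, h2⟩ := hN
    exact ⟨T, h1, fun x hx => ⟨fun i => ((h2 x hx).1 i).1, (h2 x hx).2⟩⟩
  refine ⟨main, ?_⟩
  -- the integer-part statement for `b + m` variables
  have key : ∀ (k b m : ℕ), 1 ≤ k → 2 < b → k < 2 ^ m * (b - k : ℝ) →
      ∀ᵐ a : Fin (b + m) → ℝ, (∀ i, 0 < a i) →
        ∀ᶠ N : ℕ in atTop, ∃ p : Fin (b + m) → ℕ, (∀ i, (p i).Prime) ∧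
          ⌊∑ i, a i * (p i : ℝ) ^ k⌋ = (N : ℤ) := by
    intro k b m hk hb hbk
    have hk0 : (0 : ℝ) < k := by exact_mod_cast hk
    have hk1 : (1 : ℝ) ≤ k := by exact_mod_cast hk
    have hsum : ∑ _j : Fin b, ((k : ℝ))⁻¹ = b / k := by
      rw [Finset.sum_const, Finset.card_univ, Fintype.card_fin, nsmul_eq_mul, ← div_eq_mul_inv]
    have h2m : (0 : ℝ) < 2 ^ m := by positivity
    filter_upwards [main b m (fun _ => (k : ℝ)) (fun _ => hk1) (by
      intro i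
      rw [hsum, ← div_eq_mul_inv]
      have : (2 : ℝ) < b := by exact_mod_cast hb
      gcongr)] with a ha hpos
    rw [hsum] at ha
    have hlt : (1 : ℝ) < 2 ^ m * ((b : ℝ) / k - 1) := by
      rw [div_sub_one hk0.ne', mul_div_assoc', lt_div_iff₀ hk0, one_mul]
      exact hbk
    obtain ⟨g, hg, hg2⟩ : ∃ g : ℝ, 0 < g ∧ 1 + g < 2 ^ m * ((b : ℝ) / k - 1 - g) := by
      refine ⟨(2 ^ m * ((b : ℝ) / k - 1) - 1) / (2 * (1 + 2 ^ m)), by
        apply div_pos (by linarith) (by positivity), ?_⟩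
      obtain ⟨u, hu⟩ : ∃ u : ℝ, u = (2 ^ m * ((b : ℝ) / k - 1) - 1) / (2 * (1 + 2 ^ m)) := ⟨_, rfl⟩
      have hu2 : u * (2 * (1 + 2 ^ m)) = 2 ^ m * ((b : ℝ) / k - 1) - 1 := by
        rw [hu]; field_simp
      have hu0 : 0 < u := by
        rw [hu]; apply div_pos (by linarith) (by positivity)
      rw [← hu]
      have : 0 < u * (1 + 2 ^ m) := by positivity
      nlinarith
    obtain ⟨q, hq⟩ : ∃ q : ℝ, q = ∑ _i : Fin (b + m), ((k : ℝ))⁻¹ := ⟨_, rfl⟩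
    have h1 := ha hpos g hg.le hg2 1 one_pos
    have h2 : ∀ᶠ N : ℝ in atTop, N ^ (-g) ≤ 1 / 4 :=
      (tendsto_rpow_neg_atTop hg).eventually (ge_mem_nhds (by norm_num))
    have h3 := (h1.and (h2.and (eventually_gt_atTop 0)))
    have h4 : Tendsto (fun N : ℕ => (N : ℝ) + 1 / 2) atTop atTop :=
      tendsto_atTop_add_const_right _ _ tendsto_natCast_atTop_atTop
    filter_upwards [h4.eventually h3] with N hN
    obtain ⟨⟨T, hT1, hT2⟩, hN2, hN3⟩ := hN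
    have hT0 : (0 : ℝ) < T.card := lt_of_lt_of_le (Real.rpow_pos_of_pos hN3 _) hT1
    obtain ⟨x, hx⟩ : T.Nonempty := Finset.card_pos.mp (by exact_mod_cast hT0)
    obtain ⟨hx1, hx2⟩ := hT2 x hx
    refine ⟨x, hx1, ?_⟩
    have e1 : ∑ i, a i * (x i : ℝ) ^ (k : ℝ) = ∑ i, a i * (x i : ℝ) ^ k := by
      refine Finset.sum_congr rfl fun i _ => ?_
      rw [Real.rpow_natCast]
    rw [e1] at hx2
    have hx3 := abs_le.mp (hx2.trans hN2)
    rw [Int.floor_eq_iff]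
    push_cast
    constructor <;> linarith [hx3.1, hx3.2]
  intro k m s hk hm hs
  have hk0 : (1 : ℝ) ≤ k := by exact_mod_cast hk
  by_cases hk2 : k = 1
  · subst hk2
    have hm1 : 1 ≤ m := by
      by_contra h
      have : m = 0 := by omega
      subst this
      simp at hm
    have h := key 1 s 0 le_rfl (by omega) (by
      have : (3 : ℝ) ≤ s := by exact_mod_cast (by omega : 3 ≤ s)
      push_cast
      linarith)
    exact h
  · obtain ⟨b, rfl⟩ : ∃ b, s = b + m := ⟨s - m, by omega⟩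
    refine key k b m hk (by omega) ?_
    have h1 : (k : ℝ) < 2 ^ m := by exact_mod_cast hm
    have h2 : (k : ℝ) + 1 ≤ b := by exact_mod_cast (by omega : k + 1 ≤ b)
    have h3 : (1 : ℝ) ≤ b - k := by linarith
    nlinarith

end Pool.Agent.Results.MP_efcac8_nt.LogarithmicSaving
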