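import Pool.Agent.Q138.PS.XM
import Pool.Agent.Q154.War.AlmostAll

/-!
# Waring's problem with almost all shifts at ALL integers near the powers of a real number

Let `k ≥ 3`, `i ≥ 0` with `2 ^ i ≤ k`, and `s = k + 1 + i`. For Lebesgue-almost every vector of shifts `(a_1, ..., a_s)` in
`[0, 1] ^ s` and every `l < 1` there is a set `E` of real numbers of Hausdorff dimension at most `(1 - 2 ^ i / k) / (1 - l)`
such that for each `α > 1` outside `E` there is `b > 0` such that for all positive algebraic numbers `c`, all integers `j` and all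
large `n`: EVERY natural number `N` with `|N - c n ^ j α ^ n| ≤ D (c n ^ j α ^ n) ^ l` is the integer part of
`(x_1 + a_1) ^ k + ... + (x_s + a_s) ^ k` for at least `b N ^ (s / k - 1)` vectors of positive integers.
-/

set_option autoImplicit false

namespace Pool.Agent.Results.MP_efcac8_nt.ShiftedPowersNearPowers

open Filter Topology MeasureTheory
open Pool.Agent.Q138.PS

/-- the number of the vectors `x` of positive integers with `⌊(x_1 + a_1) ^ k + ... + (x_s + a_s) ^ k⌋ = N` -/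
noncomputable def reps {s : ℕ} (a : Fin s → ℝ) (k N : ℕ) : ℕ :=
  {x : Fin s → ℕ | (∀ i, 0 < x i) ∧ ⌊∑ i, ((x i : ℝ) + a i) ^ k⌋ = (N : ℤ)}.ncard

/-- **Theorem.** -/
theorem result (k i : ℕ) (hk : 3 ≤ k) (hi : 2 ^ i ≤ k) :
    ∀ᵐ a : Fin (k + 1 + i) → ℝ, (∀ t, a t ∈ Set.Icc (0 : ℝ) 1) → ∀ l : ℝ, l < 1 →
      ∃ E : Set ℝ, dimH E ≤ ENNReal.ofReal ((1 - 2 ^ i / (k : ℝ)) / (1 - l)) ∧ ∀ α : ℝ, 1 < α → α ∉ E →
        ∃ b : ℝ, 0 < b ∧ ∀ c : ℝ, 0 < c → IsAlgebraic ℚ c → ∀ (j : ℤ) (D : ℝ), ∀ᶠ n : ℕ in atTop, ∀ N : ℕ,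
          NearPow α c j D l n N → b * (N : ℝ) ^ (((k + 1 + i : ℕ) : ℝ) / k - 1) ≤ reps a k N := by
  have hk0 : (0 : ℝ) < k := by exact_mod_cast (by omega : 0 < k)
  have he0 : (0 : ℝ) ≤ 1 - 2 ^ i / (k : ℝ) := by
    rw [sub_nonneg, div_le_one hk0]
    exact_mod_cast hi
  have h0 := fun m : ℕ => Pool.Agent.Q154.War.almost_all hk hi (show (0 : ℝ) < 1 / ((m : ℝ) + 1) by positivity)
  choose b hb h1 using h0
  filter_upwards [ae_all_iff.2 h1] with a h2 ha l hl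
  obtain ⟨E, hE, hg⟩ := pow_alg_inf (ι := Unit)
    (fun _ m => {N : ℕ | (reps a k N : ℝ) < b m * (N : ℝ) ^ (((k + 1 + i : ℕ) : ℝ) / k - 1)}) (1 - 2 ^ i / (k : ℝ)) l he0 hl
    (fun _ m => by
      obtain ⟨C, hC⟩ := h2 m ha
      refine ⟨C, fun T hT => le_trans (le_of_eq ?_) (hC T hT)⟩
      congr 2
      ext N
      constructor
      · rintro ⟨h3, h4⟩
        exact ⟨h4, h3⟩
      · rintro ⟨h3, h4⟩
        exact ⟨h4, h3⟩)
  refine ⟨E, hE, fun α hα hαE => ?_⟩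
  obtain ⟨m, hm⟩ := hg α hα hαE ()
  refine ⟨b m, hb m, fun c hc hca j D => ?_⟩
  filter_upwards [hm c hc hca j D] with n hn N hN
  exact not_lt.1 (hn N hN)

end Pool.Agent.Results.MP_efcac8_nt.ShiftedPowersNearPowers
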